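import Pool.Agent.FU3.Stmts

/-!
# Squad FU3, row ADL
-/

set_option autoImplicit false

namespace Pool.Agent.FU3.H90

open Pool.Agent.FUR Pool.Agent.FU3

theorem one_le_size (φ : PF) : 1 ≤ φ.size := by
  cases φ <;> simp [PF.size]

/-- ADL -/
theorem adl : ADLStmt := by
  intro b d φ h
  generalize he : d + 1 = e at h
  induction h generalizing d with
  | cst b e c =>
    refine ⟨[PF.cst c], by simp [PF.size], ?_, ?_⟩
    · intro ψ hψ
      rw [List.mem_singleton] at hψ
      subst hψ
      exact ⟨AD.cst _ _ _, le_rfl⟩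
    · intro σ
      cases b <;> simp
  | var b e v =>
    refine ⟨[PF.var v], by simp [PF.size], ?_, ?_⟩
    · intro ψ hψ
      rw [List.mem_singleton] at hψ
      subst hψ
      exact ⟨AD.var _ _ _, le_rfl⟩
    · intro σ
      cases b <;> simp
  | @neg b e φ h ih =>
    obtain ⟨l, h1, h2, h3⟩ := ih d he
    refine ⟨l.map PF.neg, ?_, ?_, ?_⟩
    · rw [List.length_map]
      simp only [PF.size]
      omega
    · intro ψ hψ
      rw [List.mem_map] at hψ
      obtain ⟨χ, hχ, rfl⟩ := hψ
      obtain ⟨h4, h5⟩ := h2 χ hχ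
      refine ⟨h4.neg, ?_⟩
      simp only [PF.size]
      omega
    · intro σ
      have h4 := h3 σ
      cases b
      · simp only [Bool.false_eq_true, if_false] at h4
        simp only [PF.eval, h4, Bool.not_false, if_true, List.any_map]
        rw [List.not_all_eq_any_not]
        rfl
      · simp only [if_true] at h4
        simp only [PF.eval, h4, Bool.not_true, Bool.false_eq_true, if_false, List.all_map]
        rw [List.not_any_eq_all_not]
        rfl
  | @up b e φ h ih =>
    have hde : e = d := by omega
    subst hde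
    refine ⟨[φ], ?_, ?_, ?_⟩
    · simpa using one_le_size φ
    · intro ψ hψ
      rw [List.mem_singleton] at hψ
      subst hψ
      rw [Bool.not_not]
      exact ⟨h, le_rfl⟩
    · intro σ
      cases b <;> simp
  | @or e φ ψ h h' ih ih' =>
    obtain ⟨l, h1, h2, h3⟩ := ih d he
    obtain ⟨l', h1', h2', h3'⟩ := ih' d he
    refine ⟨l ++ l', ?_, ?_, ?_⟩
    · rw [List.length_append]
      simp only [PF.size]
      omega
    · intro χ hχ
      rw [List.mem_append] at hχ
      simp only [PF.size]
      rcases hχ with hχ | hχ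
      · obtain ⟨h4, h5⟩ := h2 χ hχ
        exact ⟨h4, by omega⟩
      · obtain ⟨h4, h5⟩ := h2' χ hχ
        exact ⟨h4, by omega⟩
    · intro σ
      have h4 := h3 σ
      have h5 := h3' σ
      simp only [if_true] at h4 h5 ⊢
      rw [List.any_append, ← h4, ← h5]
      rfl
  | @and e φ ψ h h' ih ih' =>
    obtain ⟨l, h1, h2, h3⟩ := ih d he
    obtain ⟨l', h1', h2', h3'⟩ := ih' d he
    refine ⟨l ++ l', ?_, ?_, ?_⟩
    · rw [List.length_append]
      simp only [PF.size]
      omega
    · intro χ hχ
      rw [List.mem_append] at hχ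
      simp only [PF.size]
      rcases hχ with hχ | hχ
      · obtain ⟨h4, h5⟩ := h2 χ hχ
        exact ⟨h4, by omega⟩
      · obtain ⟨h4, h5⟩ := h2' χ hχ
        exact ⟨h4, by omega⟩
    · intro σ
      have h4 := h3 σ
      have h5 := h3' σ
      simp only [Bool.false_eq_true, if_false] at h4 h5 ⊢
      rw [List.all_append, ← h4, ← h5]
      rfl

end Pool.Agent.FU3.H90
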